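import Mathlib
import Pool.Agent.R953.Branch

/-!
# An explosive Crump-Mode-Jagers process with independent positive inter-birth times and no vertex
of infinite degree

The waiting times `X(j)`, `j = 0, 1, 2, ...`, are independent; `X(j)` is `4 ^ (-(j + G))` with a
geometric variable `G`, except that for `j` in a very sparse sequence `K 0 < K 1 < ...` it is
replaced by `1` with probability `1 / 2`. Every individual has a divergent sum of waiting times, so
it has only finitely many children in finite time; but with a probability that is not too small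
compared with `1 / K n` its first `K (n + 1)` children are born within a time `2 ^ (1 - n)`, which
gives explosion.
-/

set_option autoImplicit false

open MeasureTheory ProbabilityTheory Filter
open scoped ENNReal NNReal Topology

namespace Pool.Agent.Results.MP_f93fdf_pr.NoStar

open Pool.Agent.R953.Branch

section defs

/-- Birth times. Individuals are finite lists of natural numbers: `[]` is the root and `i :: u` is
the child number `i` of `u` (`i = 0, 1, 2, ...`). `ω u j` is the waiting time before the birth of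
the child number `j` of `u` (counted from the birth of the previous child, or of `u` if `j = 0`). -/
noncomputable def birth (ω : List ℕ → ℕ → ℝ≥0∞) : List ℕ → ℝ≥0∞
  | [] => 0
  | i :: u => birth ω u + ∑ j ∈ Finset.range (i + 1), ω u j

/-- The individuals born up to time `t`. -/
def tree (ω : List ℕ → ℕ → ℝ≥0∞) (t : ℝ≥0) : Set (List ℕ) := {x | birth ω x ≤ t}

/-- The explosion time. -/
noncomputable def explosionTime (ω : List ℕ → ℕ → ℝ≥0∞) : ℝ≥0∞ :=
  ⨅ (t : ℝ≥0) (_ : (tree ω t).Infinite), (t : ℝ≥0∞)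

/-- The tree of the individuals born before explosion. -/
def treeInf (ω : List ℕ → ℕ → ℝ≥0∞) : Set (List ℕ) := {x | birth ω x < explosionTime ω}

/-- Survival. -/
def survival : Set (List ℕ → ℕ → ℝ≥0∞) := {ω | (treeInf ω).Infinite}

/-- `u` has infinitely many children in `treeInf ω`. -/
def InfiniteDegree (ω : List ℕ → ℕ → ℝ≥0∞) (u : List ℕ) : Prop :=
  {i : ℕ | i :: u ∈ treeInf ω}.Infinite

/-- The law of the process when the waiting time `X(j)` has law `μ j` and the waiting times are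
independent. -/
noncomputable def cmj (μ : ℕ → ProbabilityMeasure ℝ≥0∞) : Measure (List ℕ → ℕ → ℝ≥0∞) :=
  Measure.infinitePi (fun _ : List ℕ => Measure.infinitePi (fun j => (μ j : Measure ℝ≥0∞)))

/-- The process is explosive: it survives with positive probability, and almost surely on survival
the explosion time is finite. -/
def Explosive (μ : ℕ → ProbabilityMeasure ℝ≥0∞) : Prop :=
  cmj μ survival ≠ 0 ∧ ∀ᵐ ω ∂(cmj μ), ω ∈ survival → explosionTime ω < ∞

end defs

section deterministic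

variable {ω : List ℕ → ℕ → ℝ≥0∞}

lemma birth_cons (ω : List ℕ → ℕ → ℝ≥0∞) (i : ℕ) (u : List ℕ) :
    birth ω (i :: u) = birth ω u + ∑ j ∈ Finset.range (i + 1), ω u j := rfl

lemma birth_le_finite (hdiv : ∀ u, ∑' j, ω u j = ∞) (u : List ℕ) (t : ℝ≥0) :
    {i : ℕ | birth ω (i :: u) ≤ t}.Finite := by
  have h1 : Tendsto (fun k => ∑ j ∈ Finset.range k, ω u j) atTop (𝓝 ∞) := by
    rw [← hdiv u]
    exact ENNReal.tendsto_nat_tsum _
  have h2 : ∀ᶠ k in atTop, (t : ℝ≥0∞) < ∑ j ∈ Finset.range k, ω u j :=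
    h1.eventually (lt_mem_nhds ENNReal.coe_lt_top)
  obtain ⟨k, hk⟩ := eventually_atTop.1 h2
  apply (Set.finite_Iio k).subset
  intro i hi
  rw [Set.mem_Iio]
  by_contra hcon
  have h3 := hk (i + 1) (by omega)
  have h4 : birth ω (i :: u) ≤ t := hi
  rw [birth_cons] at h4
  exact absurd (h3.trans_le (le_add_self.trans h4)) (lt_irrefl _)

/-- If the explosion time is finite, then infinitely many individuals are born before it. -/
lemma survival_of_explosion (hpos : ∀ u j, ω u j ≠ 0) (hdiv : ∀ u, ∑' j, ω u j = ∞)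
    (hτ : explosionTime ω < ∞) : ω ∈ survival := by
  by_contra hcon
  have hS : (treeInf ω).Finite := Set.not_infinite.1 hcon
  set τ := explosionTime ω with hτdef
  -- a finite time after `τ`
  obtain ⟨T, hT, -⟩ := ENNReal.lt_iff_exists_nnreal_btwn.1 hτ
  have hlt : ∀ u i, birth ω u ≠ ∞ → birth ω u < birth ω (i :: u) := by
    intro u i hu
    rw [birth_cons]
    apply ENNReal.lt_add_right hu
    rw [ne_eq, Finset.sum_eq_zero_iff]
    push Not
    exact ⟨0, Finset.mem_range.2 (by omega), hpos u 0⟩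
  have hchild : ∀ S : Set (List ℕ), S.Finite →
      {x | ∃ u ∈ S, ∃ i, x = i :: u ∧ birth ω (i :: u) ≤ T}.Finite := by
    intro S hS
    have h1 : {x | ∃ u ∈ S, ∃ i, x = i :: u ∧ birth ω (i :: u) ≤ T} =
        ⋃ u ∈ S, (fun i => i :: u) '' {i : ℕ | birth ω (i :: u) ≤ T} := by
      ext x
      simp only [Set.mem_iUnion, Set.mem_image, Set.mem_ofPred_eq, exists_prop]
      constructor
      · rintro ⟨u, hu, i, rfl, h⟩
        exact ⟨u, hu, i, h, rfl⟩
      · rintro ⟨u, hu, i, h, rfl⟩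
        exact ⟨u, hu, i, rfl, h⟩
    rw [h1]
    exact hS.biUnion fun u _ => (birth_le_finite hdiv u T).image _
  have hS' : {x | birth ω x ≤ τ}.Finite := by
    apply ((Set.finite_singleton []).union (hchild _ hS)).subset
    intro x hx
    rcases x with _ | ⟨i, u⟩
    · left; rfl
    · right
      have h1 : birth ω (i :: u) ≠ ∞ := ne_top_of_le_ne_top hτ.ne hx
      have h2 : birth ω u ≠ ∞ := by
        intro h
        apply h1
        rw [birth_cons, h]
        simp
      exact ⟨u, (hlt u i h2).trans_le hx, i, rfl, le_trans hx hT.le⟩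
  have hS'' := (hchild _ hS').subset
    (show {x | (∃ u ∈ {x | birth ω x ≤ τ}, ∃ i, x = i :: u ∧ birth ω (i :: u) ≤ T) ∧
      τ < birth ω x} ⊆ _ from fun x hx => hx.1)
  -- a time after `τ` before the next births
  obtain ⟨s, hs1, hs2⟩ : ∃ s, τ < s ∧ ∀ x ∈ {x | (∃ u ∈ {x | birth ω x ≤ τ}, ∃ i, x = i :: u ∧
      birth ω (i :: u) ≤ T) ∧ τ < birth ω x}, s ≤ birth ω x := by
    rcases Set.eq_empty_or_nonempty {x | (∃ u ∈ {x | birth ω x ≤ τ}, ∃ i, x = i :: u ∧
      birth ω (i :: u) ≤ T) ∧ τ < birth ω x} with he | hne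
    · rw [he]
      exact ⟨∞, hτ, fun x hx => absurd hx (Set.notMem_empty x)⟩
    · obtain ⟨x, hx, hmin⟩ := Set.exists_min_image _ (birth ω) hS'' hne
      exact ⟨birth ω x, hx.2, hmin⟩
  obtain ⟨t, ht1, ht2⟩ := ENNReal.lt_iff_exists_nnreal_btwn.1 (lt_min hs1 hT)
  have ht3 : (t : ℝ≥0∞) < s := ht2.trans_le (min_le_left _ _)
  have ht4 : (t : ℝ≥0∞) < T := ht2.trans_le (min_le_right _ _)
  have hsub : tree ω t ⊆ {x | birth ω x ≤ τ} := by
    intro x
    induction x with
    | nil => intro _; exact (zero_le : (0 : ℝ≥0∞) ≤ τ)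
    | cons i u ih =>
      intro hx
      have hx' : birth ω (i :: u) ≤ t := hx
      have h2 : birth ω u ≤ birth ω (i :: u) := by
        rw [birth_cons]; exact le_self_add
      have h3 := ih (h2.trans hx')
      by_contra hgt
      have h4 := hs2 (i :: u) ⟨⟨u, h3, i, rfl, hx'.trans ht4.le⟩, not_le.1 hgt⟩
      exact absurd (hx'.trans_lt ht3) (not_lt.2 h4)
  have hfin2 : ¬ (tree ω t).Infinite := Set.not_infinite.2 (hS'.subset hsub)
  have h5 : ∃ t' : ℝ≥0, (tree ω t').Infinite ∧ (t' : ℝ≥0∞) < t := by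
    by_contra hno
    push Not at hno
    have : (t : ℝ≥0∞) ≤ τ := by
      rw [hτdef]
      exact le_iInf fun t' => le_iInf fun h => hno t' h
    exact absurd ht1 (not_lt.2 this)
  obtain ⟨t', h6, h7⟩ := h5
  apply hfin2
  apply h6.mono
  intro x hx
  exact le_trans hx h7.le

/-- shift by the vertex `u` -/
def subs (u : List ℕ) (ω : List ℕ → ℕ → ℝ≥0∞) : List ℕ → ℕ → ℝ≥0∞ := fun v => ω (v ++ u)

lemma birth_append (ω : List ℕ → ℕ → ℝ≥0∞) (v u : List ℕ) :
    birth ω (v ++ u) = birth ω u + birth (subs u ω) v := by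
  induction v with
  | nil => simp [birth]
  | cons i v ih =>
    rw [List.cons_append, birth_cons, birth_cons, ih, add_assoc]
    rfl

/-- the sequence of record sizes -/
def K (n : ℕ) : ℕ := 2 ^ ((n + 2) ^ 2)

/-- `y` is good at level `n`: the first `K (n + 1)` children are born quickly -/
def good (n : ℕ) : Set (ℕ → ℝ≥0∞) := {y | ∀ j < K (n + 1), y j ≤ (2⁻¹) ^ (n + j)}

/-- there is a path of `m` good individuals -/
def F : ℕ → ℕ → Set (List ℕ → ℕ → ℝ≥0∞)
  | 0, _ => Set.univ
  | m + 1, n => {ω | ω [] ∈ good n ∧ ∃ i < K (n + 1), sub i ω ∈ F m (n + 1)}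

lemma F_anti (m : ℕ) : ∀ n, F (m + 1) n ⊆ F m n := by
  induction m with
  | zero => intro n ω _; exact Set.mem_univ ω
  | succ m ih =>
    intro n ω h
    obtain ⟨h1, i, h2, h3⟩ := h
    exact ⟨h1, i, h2, ih _ h3⟩

lemma sum_good_le (n k : ℕ) : ∑ j ∈ Finset.range k, (2⁻¹ : ℝ≥0∞) ^ (n + j) ≤ 2 * (2⁻¹) ^ n := by
  calc ∑ j ∈ Finset.range k, (2⁻¹ : ℝ≥0∞) ^ (n + j) ≤ ∑' j : ℕ, (2⁻¹ : ℝ≥0∞) ^ (n + j) :=
        ENNReal.sum_le_tsum _
    _ = ∑' j : ℕ, (2⁻¹ : ℝ≥0∞) ^ n * (2⁻¹) ^ j := by simp only [pow_add]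
    _ = 2 * (2⁻¹) ^ n := by
        rw [ENNReal.tsum_mul_left, ENNReal.tsum_geometric, ENNReal.one_sub_inv_two, inv_inv,
          mul_comm]

lemma F_birth (m : ℕ) : ∀ n, ∀ ω ∈ F m n, ∃ v : List ℕ, v.length = m ∧
    birth ω v ≤ 4 * (2⁻¹) ^ n := by
  induction m with
  | zero => intro n ω _; exact ⟨[], rfl, zero_le⟩
  | succ m ih =>
    intro n ω h
    obtain ⟨h1, i, h2, h3⟩ := h
    obtain ⟨v, hv1, hv2⟩ := ih _ _ h3
    refine ⟨v ++ [i], by simp [hv1], ?_⟩
    rw [birth_append]
    have h4 : birth ω [i] ≤ 2 * (2⁻¹) ^ n := by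
      rw [birth_cons]
      simp only [birth, zero_add]
      refine le_trans ?_ (sum_good_le n (i + 1))
      apply Finset.sum_le_sum
      intro j hj
      rw [Finset.mem_range] at hj
      exact h1 j (by omega)
    have h5 : birth (subs [i] ω) v ≤ 4 * (2⁻¹) ^ (n + 1) := hv2
    have h6 : (4 : ℝ≥0∞) * (2⁻¹) ^ (n + 1) = 2 * (2⁻¹) ^ n := by
      have : (4 : ℝ≥0∞) = 2 * 2 := by norm_num
      rw [this, pow_succ, mul_comm ((2⁻¹ : ℝ≥0∞) ^ n), mul_assoc, ← mul_assoc 2 2⁻¹,
        ENNReal.mul_inv_cancel (by norm_num) (by norm_num), one_mul]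
    rw [h6] at h5
    calc birth ω [i] + birth (subs [i] ω) v ≤ 2 * (2⁻¹) ^ n + 2 * (2⁻¹) ^ n := add_le_add h4 h5
      _ = 4 * (2⁻¹) ^ n := by rw [← add_mul]; norm_num

/-- the set of labellings with a vertex from which there is an infinite path of good individuals -/
def A : Set (List ℕ → ℕ → ℝ≥0∞) := {ω | ∃ u, birth ω u ≠ ∞ ∧ ∀ m, subs u ω ∈ F m 0}

lemma explosion_of_A (h : ω ∈ A) : explosionTime ω < ∞ := by
  obtain ⟨u, hu, hF⟩ := h
  have hinf : (tree ω ((birth ω u).toNNReal + 4)).Infinite := by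
    intro hfin
    have himg : (List.length '' (tree ω ((birth ω u).toNNReal + 4))).Finite := hfin.image _
    obtain ⟨b, hb⟩ := himg.bddAbove
    obtain ⟨v, hv1, hv2⟩ := F_birth (b + 1) 0 _ (hF (b + 1))
    have hmem : v ++ u ∈ tree ω ((birth ω u).toNNReal + 4) := by
      change birth ω (v ++ u) ≤ (((birth ω u).toNNReal + 4 : ℝ≥0) : ℝ≥0∞)
      rw [birth_append, ENNReal.coe_add, ENNReal.coe_toNNReal hu]
      apply add_le_add le_rfl
      simpa using hv2
    have h1 := hb ⟨_, hmem, rfl⟩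
    rw [List.length_append, hv1] at h1
    omega
  refine lt_of_le_of_lt (iInf_le _ ((birth ω u).toNNReal + 4)) ?_
  refine lt_of_le_of_lt (iInf_le _ hinf) ?_
  exact ENNReal.coe_lt_top

end deterministic

section law

/-- the law of `4 ^ (-(j + G))` with `G` geometric -/
noncomputable def base (j : ℕ) : Measure ℝ≥0∞ :=
  Measure.sum (fun k : ℕ => ((2⁻¹ : ℝ≥0∞) ^ (k + 1)) • Measure.dirac ((4⁻¹ : ℝ≥0∞) ^ (j + k)))

lemma tsum_half : ∑' k : ℕ, (2⁻¹ : ℝ≥0∞) ^ (k + 1) = 1 := by
  rw [ENNReal.tsum_geometric_add_one, ENNReal.one_sub_inv_two, inv_inv,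
    ENNReal.inv_mul_cancel (by norm_num) (by norm_num)]

instance (j : ℕ) : IsProbabilityMeasure (base j) := by
  constructor
  unfold base
  rw [Measure.sum_apply _ MeasurableSet.univ]
  simp only [Measure.smul_apply, measure_univ, smul_eq_mul, mul_one]
  exact tsum_half

open Classical in
/-- the law of the `j`-th waiting time -/
noncomputable def law (j : ℕ) : Measure ℝ≥0∞ :=
  if j ∈ Set.range K then (2⁻¹ : ℝ≥0∞) • base j + (2⁻¹ : ℝ≥0∞) • Measure.dirac 1 else base j

instance (j : ℕ) : IsProbabilityMeasure (law j) := by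
  constructor
  unfold law
  split_ifs
  · rw [Measure.add_apply, Measure.smul_apply, Measure.smul_apply, measure_univ, measure_univ]
    simp only [smul_eq_mul, mul_one]
    exact ENNReal.inv_two_add_inv_two
  · exact measure_univ

lemma base_zero (j : ℕ) : base j {0} = 0 := by
  unfold base
  rw [Measure.sum_apply _ (MeasurableSet.singleton _), ENNReal.tsum_eq_zero]
  intro k
  rw [Measure.smul_apply, Measure.dirac_apply' _ (MeasurableSet.singleton _)]
  simp

lemma law_zero (j : ℕ) : law j {0} = 0 := by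
  unfold law
  split_ifs
  · rw [Measure.add_apply, Measure.smul_apply, Measure.smul_apply, base_zero,
      Measure.dirac_apply' _ (MeasurableSet.singleton _)]
    simp
  · exact base_zero j

lemma base_le_of_le {n j : ℕ} (h : n ≤ j) : base j (Set.Iic ((2⁻¹) ^ (n + j))) = 1 := by
  unfold base
  rw [Measure.sum_apply _ measurableSet_Iic]
  have h1 : ∀ k : ℕ, (((2⁻¹ : ℝ≥0∞) ^ (k + 1)) • Measure.dirac ((4⁻¹ : ℝ≥0∞) ^ (j + k)))
      (Set.Iic ((2⁻¹) ^ (n + j))) = (2⁻¹ : ℝ≥0∞) ^ (k + 1) := by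
    intro k
    rw [Measure.smul_apply, Measure.dirac_apply' _ measurableSet_Iic]
    have : (4⁻¹ : ℝ≥0∞) ^ (j + k) ∈ (Set.Iic ((2⁻¹) ^ (n + j))) := by
      have h4 : (4⁻¹ : ℝ≥0∞) = (2⁻¹) ^ 2 := by
        rw [← ENNReal.inv_pow]; norm_num
      rw [Set.mem_Iic, h4, ← pow_mul]
      apply pow_le_pow_right_of_le_one'
      · exact ENNReal.inv_le_one.2 (by norm_num)
      · omega
    rw [Set.indicator_of_mem this]
    simp
  rw [tsum_congr h1, tsum_half]

lemma base_le (n j : ℕ) : (2⁻¹ : ℝ≥0∞) ^ (n + 1) ≤ base j (Set.Iic ((2⁻¹) ^ (n + j))) := by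
  unfold base
  rw [Measure.sum_apply _ measurableSet_Iic]
  refine le_trans ?_ (ENNReal.le_tsum n)
  rw [Measure.smul_apply, Measure.dirac_apply' _ measurableSet_Iic]
  have : (4⁻¹ : ℝ≥0∞) ^ (j + n) ∈ (Set.Iic ((2⁻¹) ^ (n + j))) := by
    have h4 : (4⁻¹ : ℝ≥0∞) = (2⁻¹) ^ 2 := by
      rw [← ENNReal.inv_pow]; norm_num
    rw [Set.mem_Iic, h4, ← pow_mul]
    apply pow_le_pow_right_of_le_one'
    · exact ENNReal.inv_le_one.2 (by norm_num)
    · omega
  rw [Set.indicator_of_mem this]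
  simp

open Classical in
lemma law_le (n j : ℕ) : (if j < n then (2⁻¹ : ℝ≥0∞) ^ (n + 1) else 1) *
    (if j ∈ Set.range K then 2⁻¹ else 1) ≤ law j (Set.Iic ((2⁻¹) ^ (n + j))) := by
  have h1 : (if j < n then (2⁻¹ : ℝ≥0∞) ^ (n + 1) else 1) ≤ base j (Set.Iic ((2⁻¹) ^ (n + j))) := by
    split_ifs with h
    · exact base_le n j
    · exact (base_le_of_le (not_lt.1 h)).ge
  unfold law
  split_ifs with h h2 h2
  · rw [Measure.add_apply, Measure.smul_apply, smul_eq_mul, mul_comm]
    rw [if_pos h] at h1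
    exact le_add_right (mul_le_mul_right h1 _)
  · rw [mul_one]
    rw [if_pos h] at h1
    exact h1
  · rw [Measure.add_apply, Measure.smul_apply, smul_eq_mul, mul_comm]
    rw [if_neg h] at h1
    exact le_add_right (mul_le_mul_right h1 _)
  · rw [mul_one]
    rw [if_neg h] at h1
    exact h1

lemma K_strictMono : StrictMono K := by
  intro a b h
  unfold K
  apply Nat.pow_lt_pow_right (by norm_num)
  nlinarith

/-- the law of the labels of a vertex -/
noncomputable def nu : Measure (ℕ → ℝ≥0∞) := Measure.infinitePi law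

instance : IsProbabilityMeasure nu := by
  unfold nu
  infer_instance

lemma measurable_good (n : ℕ) : MeasurableSet (good n) := by
  have : good n = ⋂ j : ℕ, ⋂ _ : j < K (n + 1), {y | y j ≤ (2⁻¹ : ℝ≥0∞) ^ (n + j)} := by
    ext y
    simp [good]
  rw [this]
  exact MeasurableSet.iInter fun j => MeasurableSet.iInter fun _ =>
    measurableSet_le (measurable_pi_apply j) measurable_const

lemma nu_good (n : ℕ) : (2⁻¹ : ℝ≥0∞) ^ ((n + 1) ^ 2) ≤ nu (good n) := by
  classical
  have h1 : good n = Set.pi (Finset.range (K (n + 1))) (fun j => (Set.Iic ((2⁻¹ : ℝ≥0∞) ^ (n + j)))) := by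
    ext y
    simp [good, Set.mem_pi]
  have h2 : nu (good n) = ∏ j ∈ Finset.range (K (n + 1)), law j (Set.Iic ((2⁻¹ : ℝ≥0∞) ^ (n + j))) := by
    rw [h1]
    unfold nu
    exact Measure.infinitePi_pi _ fun j _ => measurableSet_Iic
  rw [h2]
  refine le_trans ?_ (Finset.prod_le_prod' fun j _ => law_le n j)
  rw [Finset.prod_mul_distrib, Finset.prod_ite, Finset.prod_ite]
  simp only [Finset.prod_const, one_pow, mul_one]
  have h3 : ((Finset.range (K (n + 1))).filter (fun j => j < n)).card ≤ n := by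
    calc ((Finset.range (K (n + 1))).filter (fun j => j < n)).card ≤ (Finset.range n).card := by
          apply Finset.card_le_card
          intro j hj
          simp only [Finset.mem_filter, Finset.mem_range] at hj ⊢
          exact hj.2
      _ = n := Finset.card_range n
  have h4 : ((Finset.range (K (n + 1))).filter (fun j => j ∈ Set.range K)).card ≤ n + 1 := by
    calc ((Finset.range (K (n + 1))).filter (fun j => j ∈ Set.range K)).card
        ≤ ((Finset.range (n + 1)).image K).card := by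
          apply Finset.card_le_card
          intro j hj
          simp only [Finset.mem_filter, Finset.mem_range, Set.mem_range] at hj
          obtain ⟨h5, i, rfl⟩ := hj
          rw [Finset.mem_image]
          exact ⟨i, Finset.mem_range.2 (K_strictMono.lt_iff_lt.1 h5), rfl⟩
      _ ≤ (Finset.range (n + 1)).card := Finset.card_image_le
      _ = n + 1 := Finset.card_range _
  rw [← pow_mul, ← pow_add]
  apply pow_le_pow_right_of_le_one'
  · exact ENNReal.inv_le_one.2 (by norm_num)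
  · calc (n + 1) * _ + _ ≤ (n + 1) * n + (n + 1) :=
        add_le_add (Nat.mul_le_mul_left _ h3) h4
      _ = (n + 1) ^ 2 := by ring

/-- the law of the whole labelling -/
noncomputable def Pm : Measure (List ℕ → ℕ → ℝ≥0∞) := tm nu

instance : IsProbabilityMeasure Pm := by
  unfold Pm
  infer_instance

lemma measurable_sub (i : ℕ) : Measurable (sub (Y := ℕ → ℝ≥0∞) i) :=
  measurable_pi_lambda _ fun _ => measurable_pi_apply _

lemma measurable_F (m : ℕ) : ∀ n, MeasurableSet (F m n) := by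
  induction m with
  | zero => intro n; exact MeasurableSet.univ
  | succ m ih =>
    intro n
    have : F (m + 1) n = ((fun ω : List ℕ → ℕ → ℝ≥0∞ => ω []) ⁻¹' good n) ∩
        ⋃ i : ℕ, ⋃ _ : i < K (n + 1), sub i ⁻¹' F m (n + 1) := by
      ext ω
      simp [F]
    rw [this]
    have h0 : Measurable (fun ω : List ℕ → ℕ → ℝ≥0∞ => ω []) := measurable_pi_apply []
    refine (h0 (measurable_good n)).inter ?_
    refine MeasurableSet.iUnion fun i => MeasurableSet.iUnion fun _ => ?_
    exact measurable_sub i (ih (n + 1))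

lemma F_succ (m n : ℕ) : Pm (F (m + 1) n) = nu (good n) * (1 - (1 - Pm (F m (n + 1))) ^ K (n + 1)) := by
  have h1 : F (m + 1) n = (fun ω : List ℕ → ℕ → ℝ≥0∞ => (ω [], fun i => sub i ω)) ⁻¹'
      (good n ×ˢ (Set.pi (Finset.range (K (n + 1))) (fun _ => (F m (n + 1))ᶜ))ᶜ) := by
    ext ω
    simp [F, Set.mem_pi]
  have hm : MeasurableSet (Set.pi (Finset.range (K (n + 1)) : Set ℕ)
      (fun _ => (F m (n + 1))ᶜ)) :=
    MeasurableSet.pi (Finset.countable_toSet _) fun _ _ => (measurable_F m _).compl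
  rw [h1]
  unfold Pm
  rw [(split nu).measure_preimage ((measurable_good n).prod hm.compl).nullMeasurableSet,
    Measure.prod_prod, measure_compl hm (measure_ne_top _ _), measure_univ,
    Measure.infinitePi_pi _ fun _ _ => (measurable_F m _).compl]
  rw [Finset.prod_const, Finset.card_range, measure_compl (measurable_F m _) (measure_ne_top _ _),
    measure_univ]

lemma pow_bound {x : ℝ} (hx0 : 0 ≤ x) (hx1 : x ≤ 1) {k : ℕ} (hk : 1 ≤ k * x) :
    (1 - x) ^ k ≤ 1 / 2 := by
  have h1 : (1 + k * x) * (1 - x) ^ k ≤ 1 := by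
    calc (1 + k * x) * (1 - x) ^ k ≤ (1 + x) ^ k * (1 - x) ^ k := by
          apply mul_le_mul_of_nonneg_right _ (pow_nonneg (by linarith) _)
          exact one_add_mul_le_pow (by linarith) k
      _ = (1 - x ^ 2) ^ k := by rw [← mul_pow]; ring_nf
      _ ≤ 1 := pow_le_one₀ (by nlinarith) (by nlinarith)
  have h2 : 0 ≤ (1 - x) ^ k := pow_nonneg (by linarith) _
  nlinarith

lemma F_lower (m : ℕ) : ∀ n, nu (good n) / 2 ≤ Pm (F m n) := by
  induction m with
  | zero =>
    intro n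
    have h1 : Pm (F 0 n) = 1 := measure_univ
    rw [h1]
    calc nu (good n) / 2 ≤ nu (good n) := ENNReal.half_le_self
      _ ≤ 1 := prob_le_one
  | succ m ih =>
    intro n
    rw [F_succ, ENNReal.div_eq_inv_mul, mul_comm]
    apply mul_le_mul_right
    have h1 : (1 - Pm (F m (n + 1))) ^ K (n + 1) ≤ 2⁻¹ := by
      set x : ℝ := (nu (good (n + 1)) / 2).toReal with hx
      have hxle : nu (good (n + 1)) / 2 ≤ 1 := ENNReal.half_le_self.trans prob_le_one
      have hx1 : x ≤ 1 := by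
        rw [hx]
        exact ENNReal.toReal_le_of_le_ofReal (by norm_num) (by simpa using hxle)
      have hx0 : 0 ≤ x := ENNReal.toReal_nonneg
      have hxlow : ((2 : ℝ) ^ ((n + 2) ^ 2 + 1))⁻¹ ≤ x := by
        have h2 : (2⁻¹ : ℝ≥0∞) ^ ((n + 2) ^ 2 + 1) ≤ nu (good (n + 1)) / 2 := by
          rw [pow_succ, ENNReal.div_eq_inv_mul, mul_comm]
          exact mul_le_mul_right (nu_good (n + 1)) _
        have h3 := ENNReal.toReal_mono (ne_top_of_le_ne_top ENNReal.one_ne_top hxle) h2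
        rw [ENNReal.toReal_pow, ENNReal.toReal_inv, ENNReal.toReal_ofNat, inv_pow] at h3
        rw [hx]
        exact h3
      have hKx : 1 ≤ (K (n + 1) : ℝ) * x := by
        have h2 : (2 : ℝ) ^ ((n + 2) ^ 2 + 1) ≤ K (n + 1) := by
          unfold K
          push_cast
          apply pow_le_pow_right₀ (by norm_num)
          have : (n + 1 + 2) ^ 2 = (n + 2) ^ 2 + 2 * n + 5 := by ring
          omega
        have h3 : (0 : ℝ) < 2 ^ ((n + 2) ^ 2 + 1) := by positivity
        calc (1 : ℝ) = 2 ^ ((n + 2) ^ 2 + 1) * ((2 : ℝ) ^ ((n + 2) ^ 2 + 1))⁻¹ := by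
              rw [mul_inv_cancel₀ h3.ne']
          _ ≤ (K (n + 1) : ℝ) * x := mul_le_mul h2 hxlow (by positivity) (by positivity)
      have h4 := pow_bound hx0 hx1 hKx
      have h5 : 1 - Pm (F m (n + 1)) ≤ ENNReal.ofReal (1 - x) := by
        rw [ENNReal.ofReal_sub _ hx0, ENNReal.ofReal_one, hx,
          ENNReal.ofReal_toReal (ne_top_of_le_ne_top ENNReal.one_ne_top hxle)]
        exact tsub_le_tsub_left (ih (n + 1)) _
      calc (1 - Pm (F m (n + 1))) ^ K (n + 1) ≤ (ENNReal.ofReal (1 - x)) ^ K (n + 1) :=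
            pow_le_pow_left' h5 _
        _ = ENNReal.ofReal ((1 - x) ^ K (n + 1)) := by
            rw [ENNReal.ofReal_pow (by linarith)]
        _ ≤ ENNReal.ofReal (1 / 2) := ENNReal.ofReal_le_ofReal h4
        _ = 2⁻¹ := by
            rw [one_div, ENNReal.ofReal_inv_of_pos (by norm_num)]
            simp
    calc (2⁻¹ : ℝ≥0∞) = 1 - 2⁻¹ := ENNReal.one_sub_inv_two.symm
      _ ≤ 1 - (1 - Pm (F m (n + 1))) ^ K (n + 1) := tsub_le_tsub_left h1 _

lemma measurable_birth (u : List ℕ) :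
    Measurable (fun ω : List ℕ → ℕ → ℝ≥0∞ => birth ω u) := by
  induction u with
  | nil => exact measurable_const
  | cons i u ih =>
    simp only [birth_cons]
    apply ih.add
    apply Finset.measurable_sum
    intro j _
    exact (measurable_pi_apply j).comp (measurable_pi_apply u)

lemma measurable_subs (u : List ℕ) : Measurable (subs u) :=
  measurable_pi_lambda _ fun _ => measurable_pi_apply _

lemma measurable_A : MeasurableSet A := by
  have : A = ⋃ u : List ℕ, {ω | birth ω u ≠ ∞} ∩ ⋂ m : ℕ, subs u ⁻¹' F m 0 := by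
    ext ω
    simp [A]
  rw [this]
  refine MeasurableSet.iUnion fun u => MeasurableSet.inter ?_
    (MeasurableSet.iInter fun m => measurable_subs u (measurable_F m 0))
  exact (measurable_birth u) (MeasurableSet.singleton ∞).compl

lemma A_pos : nu (good 0) / 2 ≤ Pm A := by
  have h1 : (⋂ m : ℕ, F m 0) ⊆ A := by
    intro ω h
    refine ⟨[], by simp [birth], fun m => ?_⟩
    have h2 : subs [] ω = ω := by
      funext v
      simp [subs]
    rw [h2]
    exact Set.mem_iInter.1 h m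
  refine le_trans ?_ (measure_mono h1)
  have hanti : Antitone (fun m => F m 0) := antitone_nat_of_succ_le fun m => F_anti m 0
  rw [hanti.measure_iInter (fun m => (measurable_F m 0).nullMeasurableSet)
    ⟨0, measure_ne_top _ _⟩]
  exact le_iInf fun m => F_lower m 0

lemma base_top (j : ℕ) : base j {∞} = 0 := by
  unfold base
  rw [Measure.sum_apply _ (MeasurableSet.singleton _), ENNReal.tsum_eq_zero]
  intro k
  rw [Measure.smul_apply, Measure.dirac_apply' _ (MeasurableSet.singleton _)]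
  have : (4⁻¹ : ℝ≥0∞) ^ (j + k) ∉ ({∞} : Set ℝ≥0∞) := by
    rw [Set.mem_singleton_iff]
    exact ENNReal.pow_ne_top (ENNReal.inv_ne_top.2 (by norm_num))
  rw [Set.indicator_of_notMem this]
  simp

lemma law_top (j : ℕ) : law j {∞} = 0 := by
  unfold law
  split_ifs
  · rw [Measure.add_apply, Measure.smul_apply, Measure.smul_apply, base_top,
      Measure.dirac_apply' _ (MeasurableSet.singleton _)]
    simp
  · exact base_top j

lemma nu_lt_top (j : ℕ) : nu {y | y j = ∞} = 0 := by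
  have h1 : nu {y | y j = ∞} = law j {∞} := by
    have h2 : {y : ℕ → ℝ≥0∞ | y j = ∞} = (fun y => y j) ⁻¹' {∞} := rfl
    rw [h2, ← Measure.map_apply (measurable_pi_apply j) (MeasurableSet.singleton _)]
    unfold nu
    rw [Measure.infinitePi_map_eval]
  rw [h1, law_top]

lemma Pm_label (u : List ℕ) {S : Set (ℕ → ℝ≥0∞)} (hS : MeasurableSet S) :
    Pm {ω | ω u ∈ S} = nu S := by
  have h2 : {ω : List ℕ → ℕ → ℝ≥0∞ | ω u ∈ S} = (fun ω => ω u) ⁻¹' S := rfl
  rw [h2, ← Measure.map_apply (measurable_pi_apply u) hS]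
  unfold Pm tm
  rw [Measure.infinitePi_map_eval]

lemma N_sq : Pm Aᶜ ≤ Pm Aᶜ * Pm Aᶜ := by
  have h1 : Aᶜ ⊆ {ω : List ℕ → ℕ → ℝ≥0∞ | ω [] ∈ {y | y 0 = ∞}} ∪
      {ω : List ℕ → ℕ → ℝ≥0∞ | ω [] ∈ {y | y 1 = ∞}} ∪
      (fun ω : List ℕ → ℕ → ℝ≥0∞ => (ω [], fun i => sub i ω)) ⁻¹'
        (Set.univ ×ˢ (Set.pi (Finset.range 2) (fun _ => Aᶜ))) := by
    intro ω hω
    by_cases h0 : ω [] 0 = ∞
    · exact Or.inl (Or.inl h0)
    by_cases h1 : ω [] 1 = ∞
    · exact Or.inl (Or.inr h1)
    right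
    refine ⟨Set.mem_univ _, ?_⟩
    intro i hi
    simp only [Finset.coe_range, Set.mem_Iio] at hi
    intro hA
    apply hω
    obtain ⟨u, hu, hF⟩ := hA
    refine ⟨u ++ [i], ?_, ?_⟩
    · rw [birth_append, birth_cons]
      simp only [birth, zero_add]
      have h2 : ∑ j ∈ Finset.range (i + 1), ω [] j ≠ ∞ := by
        rw [ne_eq, ENNReal.sum_eq_top]
        push Not
        intro j hj
        rw [Finset.mem_range] at hj
        have : j = 0 ∨ j = 1 := by omega
        rcases this with rfl | rfl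
        · exact h0
        · exact h1
      exact ENNReal.add_ne_top.2 ⟨h2, hu⟩
    · intro m
      have h2 : subs (u ++ [i]) ω = subs u (sub i ω) := by
        funext v
        simp [subs, sub, List.append_assoc]
      rw [h2]
      exact hF m
  have hm : ∀ j : ℕ, MeasurableSet {y : ℕ → ℝ≥0∞ | y j = ∞} := fun j =>
    measurableSet_eq_fun (measurable_pi_apply j) measurable_const
  have hm2 : MeasurableSet (Set.pi (Finset.range 2 : Set ℕ) (fun _ => (Aᶜ))) :=
    MeasurableSet.pi (Finset.countable_toSet _) fun _ _ => measurable_A.compl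
  refine (measure_mono h1).trans ?_
  refine (measure_union_le _ _).trans ?_
  have h3 : Pm ({ω : List ℕ → ℕ → ℝ≥0∞ | ω [] ∈ {y | y 0 = ∞}} ∪
      {ω : List ℕ → ℕ → ℝ≥0∞ | ω [] ∈ {y | y 1 = ∞}}) = 0 := by
    apply measure_union_null
    · rw [Pm_label _ (hm 0), nu_lt_top]
    · rw [Pm_label _ (hm 1), nu_lt_top]
  rw [h3, zero_add]
  unfold Pm
  rw [(split nu).measure_preimage (MeasurableSet.univ.prod hm2).nullMeasurableSet,
    Measure.prod_prod, measure_univ, one_mul,
    Measure.infinitePi_pi _ fun _ _ => measurable_A.compl]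
  rw [Finset.prod_const, Finset.card_range, sq]

lemma A_full : Pm Aᶜ = 0 := by
  have h1 : Pm Aᶜ < 1 := by
    rw [measure_compl measurable_A (measure_ne_top _ _), measure_univ]
    apply ENNReal.sub_lt_self ENNReal.one_ne_top one_ne_zero
    have h2 := A_pos
    intro h3
    rw [h3] at h2
    have h4 : nu (good 0) / 2 = 0 := le_antisymm h2 zero_le
    rw [ENNReal.div_eq_zero_iff] at h4
    rcases h4 with h4 | h4
    · have h5 := nu_good 0
      rw [h4] at h5
      simp at h5
    · simp at h4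
  by_contra hne
  have h2 := N_sq
  have h3 : Pm Aᶜ * Pm Aᶜ < Pm Aᶜ * 1 :=
    ENNReal.mul_lt_mul_right hne (measure_ne_top _ _) h1
  rw [mul_one] at h3
  exact absurd h2 (not_le.2 h3)

lemma law_K (n : ℕ) : law (K n) {1}ᶜ ≤ 2⁻¹ := by
  unfold law
  rw [if_pos ⟨n, rfl⟩, Measure.add_apply, Measure.smul_apply, Measure.smul_apply,
    Measure.dirac_apply' _ (MeasurableSet.singleton 1).compl]
  simp only [smul_eq_mul, Set.mem_compl_iff, Set.mem_singleton_iff, not_true_eq_false,
    not_false_eq_true, Set.indicator_of_notMem, mul_zero, add_zero]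
  calc (2⁻¹ : ℝ≥0∞) * base (K n) {1}ᶜ ≤ 2⁻¹ * 1 := mul_le_mul_right prob_le_one _
    _ = 2⁻¹ := mul_one _

lemma nu_tail (N : ℕ) : nu {y | ∀ n ≥ N, y (K n) ≠ 1} = 0 := by
  have h1 : ∀ M : ℕ, nu {y | ∀ n ≥ N, y (K n) ≠ 1} ≤ (2⁻¹ : ℝ≥0∞) ^ M := by
    intro M
    have h2 : {y : ℕ → ℝ≥0∞ | ∀ n ≥ N, y (K n) ≠ 1} ⊆
        Set.pi ((Finset.range M).image (fun n => K (N + n))) (fun _ => {1}ᶜ) := by
      intro y hy j hj
      rw [Finset.coe_image, Set.mem_image] at hj
      obtain ⟨n, -, rfl⟩ := hj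
      exact hy (N + n) (by omega)
    refine (measure_mono h2).trans ?_
    unfold nu
    rw [Measure.infinitePi_pi _ fun _ _ => (MeasurableSet.singleton 1).compl,
      Finset.prod_image fun a _ b _ h => by
        have := K_strictMono.injective h
        omega]
    refine (Finset.prod_le_prod' fun n _ => law_K (N + n)).trans ?_
    rw [Finset.prod_const, Finset.card_range]
  have h2 : Tendsto (fun M : ℕ => (2⁻¹ : ℝ≥0∞) ^ M) atTop (𝓝 0) :=
    ENNReal.tendsto_pow_atTop_nhds_zero_of_lt_one (by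
      rw [ENNReal.inv_lt_one]; norm_num)
  exact le_antisymm (ge_of_tendsto' h2 h1) zero_le

lemma tsum_top {y : ℕ → ℝ≥0∞} (h : ∀ N, ∃ n ≥ N, y (K n) = 1) : ∑' j, y j = ∞ := by
  by_contra hne
  have hfin := ENNReal.finite_const_le_of_tsum_ne_top hne (one_ne_zero)
  obtain ⟨b, hb⟩ := hfin.bddAbove
  obtain ⟨n, hn, hy⟩ := h (b + 1)
  have h1 : K n ≤ b := hb (by rw [Set.mem_ofPred_eq, hy])
  have h2 : n ≤ K n := K_strictMono.id_le n
  omega

lemma ae_div : ∀ᵐ ω ∂Pm, ∀ u, ∑' j, ω u j = ∞ := by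
  have h : ∀ᵐ ω ∂Pm, ∀ u N, ∃ n ≥ N, ω u (K n) = 1 := by
    rw [ae_all_iff]
    intro u
    rw [ae_all_iff]
    intro N
    rw [ae_iff]
    have hm : MeasurableSet {y : ℕ → ℝ≥0∞ | ∀ n ≥ N, y (K n) ≠ 1} := by
      have : {y : ℕ → ℝ≥0∞ | ∀ n ≥ N, y (K n) ≠ 1} =
          ⋂ n, ⋂ _ : n ≥ N, {y | y (K n) = 1}ᶜ := by
        ext y; simp
      rw [this]
      exact MeasurableSet.iInter fun n => MeasurableSet.iInter fun _ =>
        (measurableSet_eq_fun (measurable_pi_apply _) measurable_const).compl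
    have h1 : {ω : List ℕ → ℕ → ℝ≥0∞ | ¬ ∃ n ≥ N, ω u (K n) = 1} =
        {ω | ω u ∈ {y : ℕ → ℝ≥0∞ | ∀ n ≥ N, y (K n) ≠ 1}} := by
      ext ω; simp
    rw [h1, Pm_label u hm, nu_tail]
  filter_upwards [h] with ω hω u
  exact tsum_top (hω u)

lemma ae_pos : ∀ᵐ ω ∂Pm, ∀ u j, ω u j ≠ 0 := by
  rw [ae_all_iff]
  intro u
  rw [ae_all_iff]
  intro j
  rw [ae_iff]
  have hm : MeasurableSet {y : ℕ → ℝ≥0∞ | y j = 0} :=
    measurableSet_eq_fun (measurable_pi_apply j) measurable_const
  have h1 : {ω : List ℕ → ℕ → ℝ≥0∞ | ¬ ω u j ≠ 0} =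
      {ω | ω u ∈ {y : ℕ → ℝ≥0∞ | y j = 0}} := by
    ext ω; simp
  rw [h1, Pm_label u hm]
  have h2 : {y : ℕ → ℝ≥0∞ | y j = 0} = (fun y => y j) ⁻¹' {0} := rfl
  rw [h2, ← Measure.map_apply (measurable_pi_apply j) (MeasurableSet.singleton _)]
  unfold nu
  rw [Measure.infinitePi_map_eval]
  exact law_zero j

lemma main : ∀ᵐ ω ∂Pm, ω ∈ survival ∧ explosionTime ω < ∞ ∧ ∀ u, ¬ InfiniteDegree ω u := by
  have hA : ∀ᵐ ω ∂Pm, ω ∈ A := by
    rw [ae_iff]
    exact A_full
  filter_upwards [hA, ae_div, ae_pos] with ω h1 h2 h3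
  have h4 := explosion_of_A h1
  refine ⟨survival_of_explosion h3 h2 h4, h4, fun u hu => ?_⟩
  apply hu
  obtain ⟨T, hT, -⟩ := ENNReal.lt_iff_exists_nnreal_btwn.1 h4
  apply (birth_le_finite h2 u T).subset
  intro i hi
  have h5 : birth ω (i :: u) < explosionTime ω := hi
  exact (h5.trans hT).le

end law

/-- **Theorem.** There is a law of independent, almost surely positive and finite waiting times
such that the Crump-Mode-Jagers process is explosive, survives almost surely, and almost surely has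
no vertex of infinite degree at the explosion time. -/
theorem result : ∃ μ : ℕ → ProbabilityMeasure ℝ≥0∞,
    (∀ j, (μ j : Measure ℝ≥0∞) {0} = 0 ∧ (μ j : Measure ℝ≥0∞) {∞} = 0) ∧ Explosive μ ∧
    ∀ᵐ ω ∂(cmj μ), ω ∈ survival ∧ explosionTime ω < ∞ ∧ ∀ u, ¬ InfiniteDegree ω u := by
  let μ : ℕ → ProbabilityMeasure ℝ≥0∞ := fun j => ⟨law j, inferInstance⟩
  have hμ : cmj μ = Pm := rfl
  have h1 : ∀ᵐ ω ∂(cmj μ), ω ∈ survival ∧ explosionTime ω < ∞ ∧ ∀ u, ¬ InfiniteDegree ω u := by
    rw [hμ]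
    exact main
  refine ⟨μ, fun j => ⟨law_zero j, law_top j⟩, ⟨?_, ?_⟩, h1⟩
  · intro h0
    have h2 : ∀ᵐ ω ∂(cmj μ), ω ∉ survival := by
      rw [ae_iff]
      simpa using h0
    have h3 : ∀ᵐ ω ∂(cmj μ), False := by
      filter_upwards [h1, h2] with ω h4 h5
      exact h5 h4.1
    rw [hμ] at h3
    rw [ae_iff] at h3
    simp at h3
  · filter_upwards [h1] with ω h2 _
    exact h2.2.1

end Pool.Agent.Results.MP_f93fdf_pr.NoStar
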